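import Pool.Agent.H91.Wm5

set_option autoImplicit false

open Pool.Agent.H91.Wm.C0 in
theorem Pool.Agent.Results.MP_33858f_an.RangeC0.result :
    ∀ (𝕜 : Type) [RCLike 𝕜] (E : Type) [NormedAddCommGroup E] [NormedSpace 𝕜 E],
    Function.Surjective (NormedSpace.inclusionInDoubleDual 𝕜 E) →
    ∀ Y : Submodule 𝕜 E, IsClosed (Y : Set E) →
      Pool.Agent.H91.Wm.WMP 𝕜 E (ZeroAtInftyContinuousMap ℕ 𝕜) →
      Pool.Agent.H91.Wm.WMP 𝕜 Y (ZeroAtInftyContinuousMap ℕ 𝕜) :=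
  main
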